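import Mathlib
import Pool.Agent.R34.UG.Final

/-!
No constant `c`, independent of `t`, is such that the classes of `K_t`-minor-free graphs have
faithful subgraph-universal graphs of order `2 ^ (c * n)`.
-/

set_option autoImplicit false

namespace Pool.Agent.Results.MP_f53640_co.UniversalNotUniform

/-- `H` is a minor of `G`: there are pairwise disjoint connected branch sets, one for each vertex of
`H`, with an edge of `G` between any two branch sets belonging to adjacent vertices of `H` -/
def IsMinor {W V : Type} (H : SimpleGraph W) (G : SimpleGraph V) : Prop :=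
  ∃ B : W → Set V, (∀ x, (G.induce (B x)).Connected) ∧
    (∀ x y, x ≠ y → Disjoint (B x) (B y)) ∧
    ∀ x y, H.Adj x y → ∃ u ∈ B x, ∃ v ∈ B y, G.Adj u v

/-- `G` is isomorphic to a (not necessarily induced) subgraph of `U` -/
def IsSub {W V : Type} (G : SimpleGraph W) (U : SimpleGraph V) : Prop :=
  ∃ φ : W → V, Function.Injective φ ∧ ∀ u v, G.Adj u v → U.Adj (φ u) (φ v)

/-- For each `c > 0` there are `t` and `n ≥ 1` such that every finite `K_t`-minor-free graph `U`
containing all `K_t`-minor-free graphs on `n` vertices as subgraphs has more than `2 ^ (c * n)`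
vertices. -/
theorem result (c : ℝ) (hc : 0 < c) : ∃ t n : ℕ, 1 ≤ n ∧
    ∀ (V : Type) [Fintype V] (U : SimpleGraph V), ¬ IsMinor (⊤ : SimpleGraph (Fin t)) U →
      (∀ G : SimpleGraph (Fin n), ¬ IsMinor (⊤ : SimpleGraph (Fin t)) G → IsSub G U) →
      (2 : ℝ) ^ (c * n) < Fintype.card V :=
  Pool.Agent.R34.UG.no_uniform c hc

end Pool.Agent.Results.MP_f53640_co.UniversalNotUniform
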